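import Pool.Agent.H98.ABCR.Stmts

set_option autoImplicit false

namespace Pool.Agent.H98.ABCR

open Finset Polynomial

theorem crt_thm : S_CRT := by
  classical
  intro L Ω w Y hL hw hY
  set n : ℕ := ∏ l ∈ L, l with hn
  have hnpos : 0 < n := Finset.prod_pos (fun l hl => (hL l hl).pos)
  have hnR : (n : ℝ) = ∏ l ∈ L, (l : ℝ) := by rw [hn]; push_cast; rfl
  have hnY : (n : ℝ) ≤ Y := by rw [hnR]; exact hY
  have hnR0 : (0 : ℝ) < n := by exact_mod_cast hnpos
  set R : Finset ℕ := (range n).filter (fun r => ∀ l ∈ L, Ω l (r % l)) with hR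
  have hRcard : (R.card : ℝ) ≤ ∏ l ∈ L, w l := by
    have h1 : R.card ≤ (L.pi (fun l => (range l).filter (Ω l))).card := by
      apply Finset.card_le_card_of_injOn (fun r l _ => r % l)
      · intro r hr
        have hr' := Finset.mem_coe.mp hr
        rw [hR, mem_filter, mem_range] at hr'
        rw [Finset.mem_coe, Finset.mem_pi]
        intro l hl
        rw [mem_filter, mem_range]
        exact ⟨Nat.mod_lt _ (hL l hl).pos, hr'.2 l hl⟩
      · intro r hr r' hr' hrr
        have hr1 := Finset.mem_coe.mp hr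
        have hr2 := Finset.mem_coe.mp hr'
        rw [hR, mem_filter, mem_range] at hr1 hr2
        have hmod : ∀ l ∈ L, r % l = r' % l := fun l hl => congrFun (congrFun hrr l) hl
        have hdvd : (n : ℤ) ∣ (r : ℤ) - r' := by
          have h2 : ∀ l ∈ L, l ∣ ((r : ℤ) - r').natAbs := by
            intro l hl
            have h3 : r' ≡ r [MOD l] := (hmod l hl).symm
            have h4 := (Nat.modEq_iff_dvd.mp h3)
            exact Int.natCast_dvd.mp h4
          have h5 : n ∣ ((r : ℤ) - r').natAbs :=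
            Finset.prod_primes_dvd _ (fun l hl => (hL l hl).prime) h2
          exact Int.natCast_dvd.mpr h5
        have h6 : r' ≡ r [MOD n] := Nat.modEq_iff_dvd.mpr hdvd
        have h7 : r' % n = r % n := h6
        rw [Nat.mod_eq_of_lt hr1.1, Nat.mod_eq_of_lt hr2.1] at h7
        exact h7.symm
    have h2 : ((L.pi (fun l => (range l).filter (Ω l))).card : ℝ) ≤ ∏ l ∈ L, w l := by
      rw [Finset.card_pi]
      push_cast
      apply Finset.prod_le_prod
      · intro l _
        positivity
      · intro l hl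
        exact hw l hl
    exact le_trans (by exact_mod_cast h1) h2
  have hmain : ((Icc 1 ⌊Y⌋₊).filter (fun m => ∀ l ∈ L, Ω l (m % l))).card ≤
      (⌊Y⌋₊ / n + 1) * R.card := by
    rw [← Finset.card_range (⌊Y⌋₊ / n + 1), ← Finset.card_product]
    apply Finset.card_le_card_of_injOn (fun m => (m / n, m % n))
    · intro m hm
      have hm' := Finset.mem_coe.mp hm
      rw [mem_filter, mem_Icc] at hm'
      rw [Finset.mem_coe, mem_product]
      constructor
      · show m / n ∈ range (⌊Y⌋₊ / n + 1)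
        rw [mem_range]
        exact Nat.lt_succ_of_le (Nat.div_le_div_right hm'.1.2)
      · show m % n ∈ R
        rw [hR, mem_filter, mem_range]
        refine ⟨Nat.mod_lt _ hnpos, fun l hl => ?_⟩
        rw [Nat.mod_mod_of_dvd _ (Finset.dvd_prod_of_mem _ hl)]
        exact hm'.2 l hl
    · intro a _ b _ hab
      have h1 : a / n = b / n := congrArg Prod.fst hab
      have h2 : a % n = b % n := congrArg Prod.snd hab
      rw [← Nat.div_add_mod a n, ← Nat.div_add_mod b n, h1, h2]
  have hY0 : 0 ≤ Y := le_trans hnR0.le hnY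
  have h1 : ((⌊Y⌋₊ / n + 1 : ℕ) : ℝ) ≤ 2 * Y / n := by
    have h2 : ((⌊Y⌋₊ / n : ℕ) : ℝ) ≤ Y / n := by
      refine le_trans Nat.cast_div_le ?_
      exact div_le_div_of_nonneg_right (Nat.floor_le hY0) hnR0.le
    have h3 : 1 ≤ Y / n := by
      rw [le_div_iff₀ hnR0]
      linarith
    push_cast
    have h4 : 2 * Y / n = Y / n + Y / n := by ring
    rw [h4]
    linarith
  calc (((Icc 1 ⌊Y⌋₊).filter (fun m => ∀ l ∈ L, Ω l (m % l))).card : ℝ)
      ≤ (((⌊Y⌋₊ / n + 1) * R.card : ℕ) : ℝ) := by exact_mod_cast hmain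
    _ = ((⌊Y⌋₊ / n + 1 : ℕ) : ℝ) * (R.card : ℝ) := by push_cast; ring
    _ ≤ (2 * Y / n) * ∏ l ∈ L, w l := by
        apply mul_le_mul h1 hRcard (by positivity)
        positivity
    _ = 2 * Y * ∏ l ∈ L, w l / l := by
        rw [Finset.prod_div_distrib, ← hnR]
        ring

end Pool.Agent.H98.ABCR
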