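import Pool.Agent.H98.ABCR.Stmts

set_option autoImplicit false

namespace Pool.Agent.H98.ABCR

open Finset Polynomial

private lemma loc_card_roots {F : Type*} [Field F] [Fintype F] [DecidableEq F] (N : ℕ) (κ : F)
    (c : ℕ) (hc : Fintype.card F - 1 = c) (hc0 : 0 < c) :
    ((univ : Finset F).filter (fun m => m ≠ 0 ∧ m ^ N = κ)).card ≤ Nat.gcd N c := by
  classical
  by_cases hne : ((univ : Finset F).filter (fun m => m ≠ 0 ∧ m ^ N = κ)).Nonempty
  · obtain ⟨m0, hm0⟩ := hne
    rw [mem_filter] at hm0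
    obtain ⟨-, hm00, hm0N⟩ := hm0
    have hg : 0 < Nat.gcd N c := Nat.gcd_pos_of_pos_right _ hc0
    have hinj : ((univ : Finset F).filter (fun m => m ≠ 0 ∧ m ^ N = κ)).card ≤
        ((nthRoots (Nat.gcd N c) (1 : F)).toFinset).card := by
      apply Finset.card_le_card_of_injOn (fun m => m * m0⁻¹)
      · intro m hm
        have hm' := Finset.mem_coe.mp hm
        rw [mem_filter] at hm'
        obtain ⟨-, hmne, hmN⟩ := hm'
        rw [Finset.mem_coe, Multiset.mem_toFinset, mem_nthRoots hg]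
        have h1 : (m * m0⁻¹) ^ N = 1 := by
          rw [mul_pow, inv_pow, hmN, hm0N]
          apply mul_inv_cancel₀
          rw [← hm0N]
          exact pow_ne_zero _ hm00
        have h2 : (m * m0⁻¹) ^ c = 1 := by
          rw [← hc]
          exact FiniteField.pow_card_sub_one_eq_one _ (mul_ne_zero hmne (inv_ne_zero hm00))
        have h3 : orderOf (m * m0⁻¹) ∣ Nat.gcd N c :=
          Nat.dvd_gcd (orderOf_dvd_of_pow_eq_one h1) (orderOf_dvd_of_pow_eq_one h2)
        exact orderOf_dvd_iff_pow_eq_one.mp h3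
      · intro a _ b _ hab
        exact mul_right_cancel₀ (inv_ne_zero hm00) hab
    calc _ ≤ _ := hinj
      _ ≤ (nthRoots (Nat.gcd N c) (1 : F)).card := Multiset.toFinset_card_le _
      _ ≤ _ := card_nthRoots _ _
  · rw [Finset.not_nonempty_iff_eq_empty] at hne
    rw [hne]
    simp

theorem loc_thm : S_LOC := by
  classical
  intro l e s ξ hl A B C hles hA hB hC
  have hl2 : 2 ≤ l := hl.out.two_le
  have hes : 0 < e * s := by omega
  have hs : 0 < s := Nat.pos_of_mul_pos_left hes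
  have he : 0 < e := Nat.pos_of_mul_pos_right hes
  set T : Finset (ZMod l) := (nthRoots s (1 : ZMod l)).toFinset with hT
  have hTcard : T.card ≤ s := le_trans (Multiset.toFinset_card_le _) (card_nthRoots _ _)
  have hsub : ((univ : Finset (ZMod l)).filter (fun m => m ≠ 0 ∧ ∃ z1 z2 z3 : ZMod l, z1 ^ s = 1 ∧
      z2 ^ s = 1 ∧ z3 ^ s = 1 ∧ A * z1 * m ^ ξ + B * z2 + C * z3 = 0)) ⊆
      T.biUnion (fun ζ => (univ : Finset (ZMod l)).filter
        (fun m => m ≠ 0 ∧ m ^ (ξ * s) = (A⁻¹ * (-(B + C * ζ))) ^ s)) := by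
    intro m hm
    rw [mem_filter] at hm
    obtain ⟨-, hm0, z1, z2, z3, h1, h2, h3, heq⟩ := hm
    have hz2 : z2 ≠ 0 := by
      rintro rfl
      rw [zero_pow hs.ne'] at h2
      exact zero_ne_one h2
    rw [mem_biUnion]
    refine ⟨z3 * z2⁻¹, ?_, ?_⟩
    · rw [hT, Multiset.mem_toFinset, mem_nthRoots hs, mul_pow, inv_pow, h2, h3]
      simp
    · rw [mem_filter]
      refine ⟨mem_univ _, hm0, ?_⟩
      have h4 : A * z1 * m ^ ξ = z2 * (-(B + C * (z3 * z2⁻¹))) := by
        have : z2 * (-(B + C * (z3 * z2⁻¹))) = -(B * z2 + C * z3) := by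
          field_simp
        rw [this]
        linear_combination heq
      have h5 : (A * z1 * m ^ ξ) ^ s = (z2 * (-(B + C * (z3 * z2⁻¹)))) ^ s := by rw [h4]
      rw [mul_pow, mul_pow, h1, mul_one, mul_pow, h2, one_mul, ← pow_mul] at h5
      rw [mul_pow, ← h5, inv_pow, ← mul_assoc, inv_mul_cancel₀ (pow_ne_zero _ hA), one_mul]
  calc _ ≤ _ := Finset.card_le_card hsub
    _ ≤ T.card * (s * Nat.gcd ξ e) := by
        apply Finset.card_biUnion_le_card_mul
        intro ζ _
        have h := loc_card_roots (F := ZMod l) (ξ * s) ((A⁻¹ * (-(B + C * ζ))) ^ s) (e * s)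
          (by rw [ZMod.card]; exact hles) hes
        rw [Nat.gcd_mul_right, mul_comm (Nat.gcd ξ e) s] at h
        convert h
    _ ≤ s * (s * Nat.gcd ξ e) := Nat.mul_le_mul_right _ hTcard
    _ = s ^ 2 * Nat.gcd ξ e := by ring

end Pool.Agent.H98.ABCR
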